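import Pool.Agent.helper13.RF.SpecU

set_option autoImplicit false

namespace Pool.Agent.RF

open NumberField

/-- at most two elements -/
theorem ULO_two (S : Finset OO) (h : S.card ≤ 2) : ∃ π₁ π₂ : OO, ∀ π ∈ S, π = π₁ ∨ π = π₂ := by
  classical
  have h3 : S.card = 0 ∨ S.card = 1 ∨ S.card = 2 := by omega
  rcases h3 with h3 | h3 | h3
  · rw [Finset.card_eq_zero] at h3
    refine ⟨0, 0, fun π hπ => ?_⟩
    rw [h3] at hπ
    simp at hπ
  · rw [Finset.card_eq_one] at h3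
    obtain ⟨a, ha⟩ := h3
    refine ⟨a, a, fun π hπ => ?_⟩
    rw [ha, Finset.mem_singleton] at hπ
    exact Or.inl hπ
  · rw [Finset.card_eq_two] at h3
    obtain ⟨a, b, _, hab⟩ := h3
    refine ⟨a, b, fun π hπ => ?_⟩
    rw [hab, Finset.mem_insert, Finset.mem_singleton] at hπ
    exact hπ

theorem ULO_five {D D₀ : ℤ} {f l : ℕ} (hD : D = D₀ * (f : ℤ) ^ 2) (h20 : D % 20 = 17) (hlf : l ∣ f) : l ≠ 5 := by
  rintro rfl
  obtain ⟨m, rfl⟩ := hlf
  have h1 : D = 5 * (D₀ * 5 * (m : ℤ) ^ 2) := by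
    rw [hD]
    push_cast
    ring
  omega

theorem ULO (h1 : ULP_stmt) (h2 : YPL_stmt) : ULO_stmt := by
  classical
  intro D₀ F _ _ C f hsq hD0 S hS hSV o ho z hz l hl hlf
  have hl5 : l ≠ 5 := ULO_five (hS o ho).2 (hS o ho).1.D20 hlf
  obtain ⟨T, hcard, hT1, _, hT3⟩ := h2 l hl hl5
  have key : ∀ π : OO, ∃ lab : Pt → Fin 6, π ∈ T → ∀ p ∈ S, ∀ q ∈ S, lab p = lab q →
      ∀ y : 𝓞 F, y ^ 5 = C.σ (C.σ (uu C f p)) * uu C f q → ∀ a b : OO, 10 * y = C.ι a + C.ι b * C.w →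
      π ^ ((f.factorization l + 14) / 15) ∣ b ∧ (¬ π ∣ o.n → π ^ (f.factorization l) ∣ b) := by
    intro π
    by_cases hπ : π ∈ T
    · obtain ⟨p1, p2, p3, p4⟩ := hT1 π hπ
      obtain ⟨lab, hlab⟩ := h1 D₀ F C f hsq hD0 S hS hSV o ho z hz l π hl hlf p1 p2 p3 p4
      exact ⟨lab, fun _ => hlab⟩
    · exact ⟨fun _ => 0, fun h => (hπ h).elim⟩
  choose lab hlab using key
  obtain ⟨π₁, π₂, h12⟩ := ULO_two T hcard
  refine ⟨fun x => Fin.cast (by norm_num) (finProdFinEquiv (lab π₁ x, lab π₂ x)), ?_⟩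
  intro p hp q hq hpq y hy a b hab
  have h3 : finProdFinEquiv (lab π₁ p, lab π₂ p) = finProdFinEquiv (lab π₁ q, lab π₂ q) := Fin.cast_injective _ hpq
  have h4 := finProdFinEquiv.injective h3
  have h6 : lab π₁ p = lab π₁ q := congrArg Prod.fst h4
  have h7 : lab π₂ p = lab π₂ q := congrArg Prod.snd h4
  apply hT3
  intro π hπ
  have hlx : lab π p = lab π q := by
    rcases h12 π hπ with h | h
    · rw [h]
      exact h6
    · rw [h]
      exact h7
  have h8 := hlab π hπ p hp q hq hlx y hy a b hab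
  by_cases hn : (l : ℤ) ∣ o.n.norm
  · rw [if_pos hn]
    exact h8.1
  · rw [if_neg hn]
    refine h8.2 fun hd => hn ?_
    refine (hT1 π hπ).2.2.2 _ ?_
    have h9 := QuadraticAlgebra.algebraMap_norm_eq_mul_star o.n
    have h10 : ((o.n.norm : ℤ) : OO) = o.n * star o.n := h9
    rw [h10]
    exact hd.mul_right _

end Pool.Agent.RF
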