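import Pool.Agent.helper60.RF.SpecB

/-!
# Project RF, row `SPC`: spacing
-/

set_option autoImplicit false

namespace Pool.Agent.RF

open NumberField

theorem SPC_im (v w : ℂ) : |((starRingEnd ℂ) v * w).im| = ‖v‖ * ‖w‖ * |Real.sin (w.arg - v.arg)| := by
  have h1 : ((starRingEnd ℂ) v * w).im = ‖v‖ * ‖w‖ * Real.sin (w.arg - v.arg) := by
    rw [Complex.mul_im, Complex.conj_re, Complex.conj_im, Real.sin_sub]
    rw [← Complex.norm_mul_cos_arg v, ← Complex.norm_mul_sin_arg v, ← Complex.norm_mul_cos_arg w, ← Complex.norm_mul_sin_arg w]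
    ring
  rw [h1, abs_mul, abs_of_nonneg (mul_nonneg (norm_nonneg _) (norm_nonneg _))]

theorem SPC_im_le (v w : ℂ) : |((starRingEnd ℂ) v * w).im| ≤ ‖v‖ * ‖w‖ := by
  rw [SPC_im]
  exact mul_le_of_le_one_right (mul_nonneg (norm_nonneg _) (norm_nonneg _)) (Real.abs_sin_le_one _)

theorem SPC_x (v : ℂ) : ∃ x : ℝ, 0 ≤ x ∧ x < Real.pi ∧ ∃ k : ℤ, x = v.arg + k * Real.pi := by
  have h1 := Complex.neg_pi_lt_arg v
  have h2 := Complex.arg_le_pi v
  by_cases h3 : v.arg < 0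
  · exact ⟨v.arg + Real.pi, by linarith, by linarith, 1, by push_cast; ring⟩
  · by_cases h4 : v.arg = Real.pi
    · exact ⟨0, le_refl _, Real.pi_pos, -1, by rw [h4]; push_cast; ring⟩
    · exact ⟨v.arg, by linarith, lt_of_le_of_ne h2 h4, 0, by push_cast; ring⟩

theorem SPC_sin (a b : ℝ) (k l : ℤ) : |Real.sin (b - a)| ≤ |(b + l * Real.pi) - (a + k * Real.pi)| := by
  have h1 : (b + l * Real.pi) - (a + k * Real.pi) = (b - a) + ((l - k : ℤ) : ℝ) * Real.pi := by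
    push_cast
    ring
  have h2 : |Real.sin (b - a)| = |Real.sin ((b - a) + ((l - k : ℤ) : ℝ) * Real.pi)| := by
    rw [Real.sin_add_int_mul_pi, abs_mul, abs_zpow, abs_neg, abs_one, one_zpow, one_mul]
  rw [h2, ← h1]
  exact Real.abs_sin_le_abs

theorem SPC : SPC_stmt := by
  intro ι S u v A V hA hV huv hV2
  choose x hx0 hxpi k hk using fun i : ι => SPC_x (v i)
  have hd : ∀ i ∈ S, ∀ j ∈ S, i ≠ j → V / A ≤ |x i - x j| := by
    intro i hi j hj hij
    rw [div_le_iff₀ hA]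
    have h1 := hV2 i hi j hj hij
    have h2 := SPC_im_le (u i) (u j)
    have h3 : |((starRingEnd ℂ) (v i) * v j).im| ≤ ‖v i‖ * ‖v j‖ * |x i - x j| := by
      rw [SPC_im]
      refine mul_le_mul_of_nonneg_left ?_ (mul_nonneg (norm_nonneg _) (norm_nonneg _))
      rw [hk i, hk j, abs_sub_comm]
      exact SPC_sin _ _ _ _
    have h4 : (‖u i‖ * ‖v i‖) * (‖u j‖ * ‖v j‖) ≤ A := by
      have h5 : (‖u i‖ * ‖v i‖) ^ 2 ≤ A := by rw [mul_pow]; exact huv i hi
      have h6 : (‖u j‖ * ‖v j‖) ^ 2 ≤ A := by rw [mul_pow]; exact huv j hj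
      nlinarith [sq_nonneg (‖u i‖ * ‖v i‖ - ‖u j‖ * ‖v j‖)]
    calc V ≤ |((starRingEnd ℂ) (u i) * u j).im| * |((starRingEnd ℂ) (v i) * v j).im| := h1
      _ ≤ (‖u i‖ * ‖u j‖) * (‖v i‖ * ‖v j‖ * |x i - x j|) := mul_le_mul h2 h3 (abs_nonneg _) (mul_nonneg (norm_nonneg _) (norm_nonneg _))
      _ = ((‖u i‖ * ‖v i‖) * (‖u j‖ * ‖v j‖)) * |x i - x j| := by ring
      _ ≤ A * |x i - x j| := mul_le_mul_of_nonneg_right h4 (abs_nonneg _)
      _ = |x i - x j| * A := mul_comm _ _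
  have hδ : 0 < V / A := div_pos hV hA
  -- the floors
  have hmaps : ∀ i ∈ S, ⌊x i / (V / A)⌋₊ ∈ Finset.range (⌊Real.pi / (V / A)⌋₊ + 1) := by
    intro i _
    rw [Finset.mem_range, Nat.lt_succ_iff]
    exact Nat.floor_le_floor (div_le_div_of_nonneg_right (hxpi i).le hδ.le)
  have hinj : ∀ i ∈ S, ∀ j ∈ S, ⌊x i / (V / A)⌋₊ = ⌊x j / (V / A)⌋₊ → i = j := by
    intro i hi j hj hij
    by_contra hne
    have h1 := hd i hi j hj hne
    have h2 := Nat.floor_le (div_nonneg (hx0 i) hδ.le)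
    have h3 := Nat.lt_floor_add_one (x i / (V / A))
    have h4 := Nat.floor_le (div_nonneg (hx0 j) hδ.le)
    have h5 := Nat.lt_floor_add_one (x j / (V / A))
    rw [hij] at h2 h3
    have h6 : |x i / (V / A) - x j / (V / A)| < 1 := by
      rw [abs_lt]
      constructor <;> linarith
    rw [← sub_div, abs_div, abs_of_pos hδ, div_lt_one hδ] at h6
    linarith
  have hcard := Finset.card_le_card_of_injOn (s := S) (t := Finset.range (⌊Real.pi / (V / A)⌋₊ + 1)) (fun i => ⌊x i / (V / A)⌋₊) hmaps (by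
    intro i hi j hj hij
    exact hinj i hi j hj hij)
  rw [Finset.card_range] at hcard
  have h1 : (S.card : ℝ) ≤ (⌊Real.pi / (V / A)⌋₊ : ℝ) + 1 := by exact_mod_cast hcard
  have h2 : (⌊Real.pi / (V / A)⌋₊ : ℝ) ≤ Real.pi / (V / A) := Nat.floor_le (div_nonneg Real.pi_pos.le hδ.le)
  have h3 : Real.pi / (V / A) = Real.pi * (A / V) := by
    field_simp
  have h4 : Real.pi * (A / V) ≤ 4 * (A / V) := mul_le_mul_of_nonneg_right Real.pi_le_four (div_pos hA hV).le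
  linarith

end Pool.Agent.RF
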